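import Mathlib
import Pool.Agent.Helper1.TE.Goals2

/-!
Packet TE-CT (project of helper1, MP_8b4d68_lc): the capped table is the table.
-/

set_option autoImplicit false

open Pool.Agent.Helper1.TE
open Pool.Agent.Helper65.LinSpace (dig tab nrec capPow nrec_succ tab_succ tab_lt)

namespace Pool.Agent.Helper13.TE

theorem gCT : GoalCT := by
  intro W q m d hd hq
  have key : ∀ n : ℕ, n ≤ m → nrec 0 (fun i r => min (r + d i * capPow q i W) W) n = tab q n d := by
    intro n
    induction n with
    | zero => intro _; rfl
    | succ n ih =>
      intro hn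
      have hq0 : 0 < q := lt_of_le_of_lt (Nat.zero_le _) (hd n (by omega))
      have h1 : q ^ n ≤ W := le_trans (Nat.pow_le_pow_right hq0 (by omega)) hq
      have h2 : q ^ (n + 1) ≤ W := le_trans (Nat.pow_le_pow_right hq0 hn) hq
      have h3 : capPow q n W = q ^ n := by
        unfold capPow
        exact min_eq_left (by omega)
      have h4 : tab q (n + 1) d < q ^ (n + 1) := tab_lt fun i hi => hd i (by omega)
      rw [nrec_succ, ih (by omega), h3, ← tab_succ]
      exact min_eq_left (by omega)
  exact key m le_rfl

end Pool.Agent.Helper13.TE
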